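import Pool.Agent.V5helper50.SP.Stm

/-!
# Project SP, job EXT: from dimension `d` to dimension `d + 1`
-/

set_option autoImplicit false

open Finset MeasureTheory

namespace Pool.Agent.V5helper65.SP.EXT

open Pool.Agent.V5helper51.MT (a g)
open Pool.Agent.V5helper50.SP

/-- the set of the solutions -/
def Sol (k q d : ℕ) (α : Fin (k - 1) → ℝ) (ρ : Fin d → ℕ) (n : ℤ) : Set (Fin d → ℕ) :=
  {x : Fin d → ℕ | (∀ i, x i % q = ρ i % q) ∧ ∑ i, a k q α (x i) = n}

lemma R_le_sum {k q d : ℕ} {α : Fin (k - 1) → ℝ}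
    (fin : ∀ (d : ℕ) (ρ : Fin d → ℕ) (n : ℤ), (Sol k q d α ρ n).Finite)
    (ρ : Fin (d + 1) → ℕ) (n : ℤ) (X : Finset ℕ)
    (hX : ∀ y ∈ Sol k q (d + 1) α ρ n, y (Fin.last d) ∈ X) :
    R k q (d + 1) α ρ n ≤ ∑ x ∈ X, R k q d α (fun i => ρ i.castSucc) (n - a k q α x) := by
  classical
  have hR : ∀ (d : ℕ) (ρ : Fin d → ℕ) (n : ℤ), R k q d α ρ n = (fin d ρ n).toFinset.card := by
    intro d ρ n
    exact Set.ncard_eq_toFinset_card _ (fin d ρ n)
  rw [hR]
  simp_rw [hR]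
  calc ((fin (d + 1) ρ n).toFinset).card
      ≤ (X.biUnion fun x => ((fin d (fun i => ρ i.castSucc) (n - a k q α x)).toFinset).image
          (fun y => (Fin.snoc y x : Fin (d + 1) → ℕ))).card := by
        apply Finset.card_le_card
        intro y hy
        rw [Set.Finite.mem_toFinset] at hy
        rw [Finset.mem_biUnion]
        refine ⟨y (Fin.last d), hX y hy, ?_⟩
        rw [Finset.mem_image]
        refine ⟨Fin.init y, ?_, ?_⟩
        · rw [Set.Finite.mem_toFinset]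
          refine ⟨fun i => hy.1 i.castSucc, ?_⟩
          have h2 := hy.2
          rw [Fin.sum_univ_castSucc] at h2
          simp only [Fin.init]
          linarith
        · exact Fin.snoc_init_self y
    _ ≤ ∑ x ∈ X, (((fin d (fun i => ρ i.castSucc) (n - a k q α x)).toFinset).image
          (fun y => (Fin.snoc y x : Fin (d + 1) → ℕ))).card := Finset.card_biUnion_le
    _ ≤ _ := Finset.sum_le_sum fun x _ => Finset.card_image_le

lemma sum_le_R {k q d : ℕ} {α : Fin (k - 1) → ℝ}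
    (fin : ∀ (d : ℕ) (ρ : Fin d → ℕ) (n : ℤ), (Sol k q d α ρ n).Finite)
    (ρ : Fin (d + 1) → ℕ) (n : ℤ) (X : Finset ℕ)
    (hX : ∀ x ∈ X, x % q = ρ (Fin.last d) % q) :
    ∑ x ∈ X, R k q d α (fun i => ρ i.castSucc) (n - a k q α x) ≤ R k q (d + 1) α ρ n := by
  classical
  have hR : ∀ (d : ℕ) (ρ : Fin d → ℕ) (n : ℤ), R k q d α ρ n = (fin d ρ n).toFinset.card := by
    intro d ρ n
    exact Set.ncard_eq_toFinset_card _ (fin d ρ n)
  rw [hR]
  simp_rw [hR]
  rw [← Finset.card_sigma]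
  refine Finset.card_le_card_of_injOn (fun p => (Fin.snoc p.2 p.1 : Fin (d + 1) → ℕ)) ?_ ?_
  · intro p hp
    rw [Finset.mem_coe, Finset.mem_sigma, Set.Finite.mem_toFinset] at hp
    rw [Finset.mem_coe, Set.Finite.mem_toFinset]
    obtain ⟨h1, h2, h3⟩ := hp
    refine ⟨?_, ?_⟩
    · intro i
      refine Fin.lastCases ?_ (fun j => ?_) i
      · simpa using hX _ h1
      · simpa using h2 j
    · rw [Fin.sum_univ_castSucc]
      simp only [Fin.snoc_castSucc, Fin.snoc_last]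
      linarith
  · intro p hp p' hp' h
    obtain ⟨x, y⟩ := p
    obtain ⟨x', y'⟩ := p'
    simp only at h
    have h1 : x = x' := by
      have := congrFun h (Fin.last d)
      simpa using this
    have h2 : y = y' := by
      funext i
      have := congrFun h i.castSucc
      simpa using this
    subst h1 h2
    rfl

/-- `a x ≡ x ^ k` -/
lemma a_modEq (k q : ℕ) (α : Fin (k - 1) → ℝ) (x r : ℕ) (h : x % q = r % q) :
    (q : ℤ) ∣ a k q α x - (r : ℤ) ^ k := by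
  have h1 : (q : ℤ) ∣ (x : ℤ) ^ k - (r : ℤ) ^ k := by
    have h2 : (q : ℤ) ∣ (x : ℤ) - r := by
      have h3 : (r : ℤ) ≡ x [ZMOD q] := by
        have : r ≡ x [MOD q] := h.symm
        exact (Int.natCast_modEq_iff).2 this
      exact h3.dvd
    exact h2.trans (sub_dvd_pow_sub_pow _ _ k)
  have h2 : a k q α x - (r : ℤ) ^ k = ((x : ℤ) ^ k - (r : ℤ) ^ k) + q * ⌊g k α x⌋ := by
    unfold Pool.Agent.V5helper51.MT.a
    ring
  rw [h2]
  exact dvd_add h1 (dvd_mul_right _ _)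

lemma upper {k q d : ℕ} (hk : 2 ≤ k) (hq : 1 ≤ q) {α : Fin (k - 1) → ℝ} {C E Z K : ℝ} (hC : 0 < C)
    (hE : 0 ≤ E)
    (fin : ∀ (d : ℕ) (ρ : Fin d → ℕ) (n : ℤ), (Sol k q d α ρ n).Finite)
    {x₀ B n₀ : ℕ} {m₀ : ℤ} {A₀ : ℤ}
    (hgr : ∀ x : ℕ, x₀ ≤ x → (x : ℝ) ^ k / 2 ≤ a k q α x)
    (hmono : ∀ x y : ℕ, x₀ ≤ x → x < y → a k q α x < a k q α y)
    (hB : ∀ x : ℕ, -(B : ℤ) ≤ a k q α x)
    (hA : ∀ x < x₀, a k q α x ≤ A₀)
    (ρ : Fin (d + 1) → ℕ)
    (hm : ∀ n : ℤ, n < m₀ → R k q d α (fun i => ρ i.castSucc) n = 0)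
    (hK : K = ((∑ m ∈ Finset.Ico m₀ (n₀ : ℤ), R k q d α (fun i => ρ i.castSucc) m : ℕ) : ℝ))
    (h0 : ∀ n : ℕ, n₀ ≤ n → (R k q d α (fun i => ρ i.castSucc) n : ℝ) ≤ C / (q : ℝ) ^ (d - 1) * (n : ℝ) ^ E)
    (n : ℕ) (hZ : 0 ≤ Z) (hZk : Z ^ k = n) (h1 : (n₀ : ℤ) + A₀ ≤ n) (h2 : B ≤ n) (h3 : (q : ℝ) ≤ Z)
    (h4 : (x₀ : ℝ) ≤ Z) :
    (R k q (d + 1) α ρ n : ℝ) ≤ (3 * Z / q) * (C / (q : ℝ) ^ (d - 1) * (2 ^ E * (n : ℝ) ^ E)) + K := by
  classical
  have hq0 : (0 : ℝ) < q := by exact_mod_cast hq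
  set X : Finset ℕ := (fin (d + 1) ρ n).toFinset.image (fun y => y (Fin.last d)) with hXdef
  have hXmod : ∀ x ∈ X, x % q = ρ (Fin.last d) % q := by
    intro x hx
    rw [hXdef, Finset.mem_image] at hx
    obtain ⟨y, hy, rfl⟩ := hx
    rw [Set.Finite.mem_toFinset] at hy
    exact hy.1 _
  have hsum := R_le_sum fin ρ n X (by
    intro y hy
    rw [hXdef, Finset.mem_image]
    exact ⟨y, by rwa [Set.Finite.mem_toFinset], rfl⟩)
  set f : ℤ → ℕ := fun m => R k q d α (fun i => ρ i.castSucc) m with hf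
  set p : ℕ → Prop := fun x => (n₀ : ℤ) ≤ n - a k q α x with hp
  have hsplit : ∑ x ∈ X, f (n - a k q α x) = ∑ x ∈ X.filter p, f (n - a k q α x) +
      ∑ x ∈ X.filter (fun x => ¬ p x), f (n - a k q α x) := (Finset.sum_filter_add_sum_filter_not _ _ _).symm
  -- the second sum
  have hsecond : ∑ x ∈ X.filter (fun x => ¬ p x), f (n - a k q α x) ≤ ∑ m ∈ Finset.Ico m₀ (n₀ : ℤ), f m := by
    set Y : Finset ℕ := X.filter (fun x => ¬ p x ∧ m₀ ≤ n - a k q α x) with hY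
    have e1 : ∑ x ∈ X.filter (fun x => ¬ p x), f (n - a k q α x) = ∑ x ∈ Y, f (n - a k q α x) := by
      symm
      apply Finset.sum_subset
      · intro x hx
        rw [hY, Finset.mem_filter] at hx
        rw [Finset.mem_filter]
        exact ⟨hx.1, hx.2.1⟩
      · intro x hx hxY
        rw [Finset.mem_filter] at hx
        rw [hY, Finset.mem_filter] at hxY
        apply hm
        by_contra hcon
        exact hxY ⟨hx.1, hx.2, not_lt.1 hcon⟩
    have hge : ∀ x ∈ Y, x₀ ≤ x := by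
      intro x hx
      rw [hY, Finset.mem_filter] at hx
      by_contra hcon
      have := hA x (not_le.1 hcon)
      apply hx.2.1
      show (n₀ : ℤ) ≤ n - a k q α x
      linarith
    have hinj : Set.InjOn (fun x : ℕ => (n : ℤ) - a k q α x) (Y : Set ℕ) := by
      intro x hx x' hx' h
      have hx1 := hge x hx
      have hx1' := hge x' hx'
      simp only at h
      have h' : a k q α x = a k q α x' := by linarith
      rcases lt_trichotomy x x' with hlt | heq | hgt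
      · exact absurd h' (ne_of_lt (hmono x x' hx1 hlt))
      · exact heq
      · exact absurd h'.symm (ne_of_lt (hmono x' x hx1' hgt))
    rw [e1, ← Finset.sum_image (f := f) (g := fun x : ℕ => (n : ℤ) - a k q α x) hinj]
    apply Finset.sum_le_sum_of_subset
    intro m hmm
    rw [Finset.mem_image] at hmm
    obtain ⟨x, hx, rfl⟩ := hmm
    rw [hY, Finset.mem_filter] at hx
    rw [Finset.mem_Ico]
    exact ⟨hx.2.2, not_le.1 hx.2.1⟩
  -- the number of the terms of the first sum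
  have hle : ∀ x ∈ X.filter p, (x : ℝ) ≤ 2 * Z := by
    intro x hx
    rw [Finset.mem_filter] at hx
    rcases lt_or_ge x x₀ with hlt | hge
    · have : (x : ℝ) ≤ x₀ := by exact_mod_cast hlt.le
      linarith
    · have e1 := hgr x hge
      have e2 : (a k q α x : ℝ) ≤ n := by
        have e3 : a k q α x ≤ n := by
          have := hx.2
          have e4 : (n₀ : ℤ) ≤ n - a k q α x := this
          have e5 : (0 : ℤ) ≤ n₀ := Int.natCast_nonneg _
          linarith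
        exact_mod_cast e3
      have e6 : (x : ℝ) ^ k ≤ (2 * Z) ^ k := by
        rw [mul_pow, hZk]
        have e7 : (2 : ℝ) ≤ 2 ^ k := by
          calc (2 : ℝ) = 2 ^ 1 := by norm_num
            _ ≤ 2 ^ k := pow_le_pow_right₀ (by norm_num) (by omega)
        have e8 : (0 : ℝ) ≤ n := Nat.cast_nonneg _
        nlinarith
      exact le_of_pow_le_pow_left₀ (by omega) (by positivity) e6
  have hcard : ((X.filter p).card : ℝ) ≤ 3 * Z / q := by
    have e1 : (X.filter p).card ≤ (range (⌊2 * Z / q⌋₊ + 1)).card := by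
      refine Finset.card_le_card_of_injOn (fun x => x / q) ?_ ?_
      · intro x hx
        have hx' := hle x hx
        rw [Finset.mem_coe, Finset.mem_range, Nat.lt_succ_iff]
        apply Nat.le_floor
        calc ((x / q : ℕ) : ℝ) ≤ (x : ℝ) / q := Nat.cast_div_le
          _ ≤ 2 * Z / q := by gcongr
      · intro x hx x' hx' h
        rw [Finset.mem_coe, Finset.mem_filter] at hx hx'
        simp only at h
        have m1 := hXmod x hx.1
        have m2 := hXmod x' hx'.1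
        rw [← Nat.div_add_mod x q, ← Nat.div_add_mod x' q, h, m1, m2]
    rw [Finset.card_range] at e1
    have e2 : ((X.filter p).card : ℝ) ≤ (⌊2 * Z / q⌋₊ : ℝ) + 1 := by exact_mod_cast e1
    have e3 : (⌊2 * Z / q⌋₊ : ℝ) ≤ 2 * Z / q := Nat.floor_le (by positivity)
    have e4 : 1 ≤ Z / q := by rw [le_div_iff₀ hq0]; linarith
    have e5 : 3 * Z / q = 2 * Z / q + Z / q := by ring
    linarith
  -- the first sum
  have hfirst : ((∑ x ∈ X.filter p, f (n - a k q α x) : ℕ) : ℝ) ≤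
      (3 * Z / q) * (C / (q : ℝ) ^ (d - 1) * (2 ^ E * (n : ℝ) ^ E)) := by
    push_cast
    calc ∑ x ∈ X.filter p, (f (n - a k q α x) : ℝ)
        ≤ ∑ x ∈ X.filter p, C / (q : ℝ) ^ (d - 1) * (2 ^ E * (n : ℝ) ^ E) := by
          apply Finset.sum_le_sum
          intro x hx
          rw [Finset.mem_filter] at hx
          have hx2 : (n₀ : ℤ) ≤ n - a k q α x := hx.2
          obtain ⟨m, hmm⟩ := Int.eq_ofNat_of_zero_le (a := n - a k q α x) (by
            have e5 : (0 : ℤ) ≤ n₀ := Int.natCast_nonneg _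
            linarith)
          rw [hmm] at hx2 ⊢
          have hx3 : n₀ ≤ m := by exact_mod_cast hx2
          refine (h0 m hx3).trans ?_
          have e1 : (m : ℝ) ≤ 2 * n := by
            have e2 := hB x
            have e3 : (m : ℤ) ≤ 2 * n := by
              have e4 : (B : ℤ) ≤ n := by exact_mod_cast h2
              linarith
            exact_mod_cast e3
          have e2 : (m : ℝ) ^ E ≤ 2 ^ E * (n : ℝ) ^ E := by
            rw [← Real.mul_rpow (by norm_num) (Nat.cast_nonneg _)]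
            exact Real.rpow_le_rpow (Nat.cast_nonneg _) e1 hE
          gcongr
      _ = ((X.filter p).card : ℝ) * (C / (q : ℝ) ^ (d - 1) * (2 ^ E * (n : ℝ) ^ E)) := by
          rw [Finset.sum_const, nsmul_eq_mul]
      _ ≤ _ := by gcongr
  have htot : (R k q (d + 1) α ρ n : ℝ) ≤ ((∑ x ∈ X.filter p, f (n - a k q α x) : ℕ) : ℝ) +
      ((∑ m ∈ Finset.Ico m₀ (n₀ : ℤ), f m : ℕ) : ℝ) := by
    have : R k q (d + 1) α ρ n ≤ ∑ x ∈ X.filter p, f (n - a k q α x) + ∑ m ∈ Finset.Ico m₀ (n₀ : ℤ), f m := by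
      calc R k q (d + 1) α ρ n ≤ ∑ x ∈ X, f (n - a k q α x) := hsum
        _ ≤ _ := by rw [hsplit]; exact Nat.add_le_add_left hsecond _
    exact_mod_cast this
  rw [hK]
  linarith

lemma lower {k q d : ℕ} (hk : 2 ≤ k) (hq : 1 ≤ q) {α : Fin (k - 1) → ℝ} {c E Z : ℝ} (hc : 0 < c)
    (hE : 0 ≤ E)
    (fin : ∀ (d : ℕ) (ρ : Fin d → ℕ) (n : ℤ), (Sol k q d α ρ n).Finite)
    {x₀ n₀ : ℕ}
    (hgr : ∀ x : ℕ, x₀ ≤ x → (a k q α x : ℝ) ≤ 2 * (x : ℝ) ^ k)
    (ρ : Fin (d + 1) → ℕ)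
    (h0 : ∀ n : ℕ, n₀ ≤ n → ((q : ℤ) ∣ (n : ℤ) - ∑ i : Fin d, (ρ i.castSucc : ℤ) ^ k) →
      c / (q : ℝ) ^ (d - 1) * (n : ℝ) ^ E ≤ (R k q d α (fun i => ρ i.castSucc) n : ℝ))
    (n : ℕ) (hZ : 0 ≤ Z) (hZk : Z ^ k = n) (h1 : 2 * n₀ ≤ n)
    (h3 : ((ρ (Fin.last d) % q + q * x₀ + q : ℕ) : ℝ) ≤ Z / 8)
    (hdvd : (q : ℤ) ∣ (n : ℤ) - ∑ i, (ρ i : ℤ) ^ k) :
    (Z / (8 * q)) * (c / (q : ℝ) ^ (d - 1) * ((n : ℝ) ^ E / 2 ^ E)) ≤ (R k q (d + 1) α ρ n : ℝ) := by
  classical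
  have hq0 : (0 : ℝ) < q := by exact_mod_cast hq
  set x₁ : ℕ := ρ (Fin.last d) % q + q * x₀ with hx₁
  set I : ℕ := ⌊Z / (8 * q)⌋₊ + 1 with hI
  set X : Finset ℕ := (range I).image (fun i => x₁ + q * i) with hX
  have hXmod : ∀ x ∈ X, x % q = ρ (Fin.last d) % q := by
    intro x hx
    rw [hX, Finset.mem_image] at hx
    obtain ⟨i, hi, rfl⟩ := hx
    rw [hx₁, Nat.add_mul_mod_self_left, Nat.add_mul_mod_self_left, Nat.mod_mod]
  have hcard : X.card = I := by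
    rw [hX, Finset.card_image_of_injective, Finset.card_range]
    intro i j h
    simp only at h
    have : q * i = q * j := by omega
    exact Nat.eq_of_mul_eq_mul_left hq this
  have hsum := sum_le_R fin ρ n X hXmod
  have hterm : ∀ x ∈ X, c / (q : ℝ) ^ (d - 1) * ((n : ℝ) ^ E / 2 ^ E) ≤
      (R k q d α (fun i => ρ i.castSucc) (n - a k q α x) : ℝ) := by
    intro x hx
    have hxm := hXmod x hx
    rw [hX, Finset.mem_image] at hx
    obtain ⟨i, hi, hxi⟩ := hx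
    rw [Finset.mem_range, hI, Nat.lt_succ_iff] at hi
    have hge : x₀ ≤ x := by
      have e0 : x₀ ≤ q * x₀ := Nat.le_mul_of_pos_left _ hq
      rw [← hxi, hx₁]
      exact e0.trans ((Nat.le_add_left _ _).trans (Nat.le_add_right _ _))
    have hle : (x : ℝ) ≤ Z / 4 := by
      have e1 : (i : ℝ) ≤ Z / (8 * q) := (Nat.cast_le.2 hi).trans (Nat.floor_le (by positivity))
      have e2 : (q : ℝ) * i ≤ Z / 8 := by
        calc (q : ℝ) * i ≤ q * (Z / (8 * q)) := by gcongr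
          _ = Z / 8 := by field_simp
      have e3 : (x : ℝ) = x₁ + q * i := by rw [← hxi]; push_cast; ring
      have e4 : ((x₁ + q : ℕ) : ℝ) ≤ Z / 8 := h3
      push_cast at e4
      rw [e3]
      linarith
    have e1 : (a k q α x : ℝ) ≤ n / 2 := by
      have e2 := hgr x hge
      have e3 : (x : ℝ) ^ k ≤ (Z / 4) ^ k := pow_le_pow_left₀ (Nat.cast_nonneg _) hle k
      rw [div_pow, hZk] at e3
      have e4 : (n : ℝ) / 4 ^ k ≤ n / 4 := by
        have e7 : (4 : ℝ) ≤ 4 ^ k := by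
          calc (4 : ℝ) = 4 ^ 1 := by norm_num
            _ ≤ 4 ^ k := pow_le_pow_right₀ (by norm_num) (by omega)
        gcongr
      linarith
    have e2 : (2 : ℤ) * a k q α x ≤ n := by
      have : (2 : ℝ) * a k q α x ≤ n := by linarith
      exact_mod_cast this
    have e3 : (2 : ℤ) * n₀ ≤ n := by exact_mod_cast h1
    obtain ⟨m, hmm⟩ := Int.eq_ofNat_of_zero_le (a := n - a k q α x) (by
      have e5 : (0 : ℤ) ≤ n₀ := Int.natCast_nonneg _
      linarith)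
    rw [hmm]
    have e4 : n₀ ≤ m := by
      have : (n₀ : ℤ) ≤ m := by linarith
      exact_mod_cast this
    have e5 : (n : ℝ) / 2 ≤ m := by
      have e6 : (n : ℤ) ≤ 2 * m := by linarith
      have e7 : (n : ℝ) ≤ 2 * m := by exact_mod_cast e6
      linarith
    refine le_trans ?_ (h0 m e4 ?_)
    · have e6 : (n : ℝ) ^ E / 2 ^ E ≤ (m : ℝ) ^ E := by
        rw [← Real.div_rpow (Nat.cast_nonneg _) (by norm_num)]
        exact Real.rpow_le_rpow (by positivity) e5 hE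
      gcongr
    · have e6 := a_modEq k q α x (ρ (Fin.last d)) hxm
      rw [Fin.sum_univ_castSucc] at hdvd
      have e7 : (m : ℤ) - ∑ i : Fin d, (ρ i.castSucc : ℤ) ^ k =
          ((n : ℤ) - (∑ i : Fin d, (ρ i.castSucc : ℤ) ^ k + (ρ (Fin.last d) : ℤ) ^ k)) -
            (a k q α x - (ρ (Fin.last d) : ℤ) ^ k) := by
        have : (m : ℤ) = n - a k q α x := hmm.symm
        rw [this]; ring
      rw [e7]
      exact dvd_sub hdvd e6
  calc (Z / (8 * q)) * (c / (q : ℝ) ^ (d - 1) * ((n : ℝ) ^ E / 2 ^ E))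
      ≤ (I : ℝ) * (c / (q : ℝ) ^ (d - 1) * ((n : ℝ) ^ E / 2 ^ E)) := by
        have : Z / (8 * q) ≤ (I : ℝ) := by
          rw [hI]; push_cast; exact (Nat.lt_floor_add_one _).le
        gcongr
    _ = ∑ x ∈ X, c / (q : ℝ) ^ (d - 1) * ((n : ℝ) ^ E / 2 ^ E) := by
        rw [Finset.sum_const, nsmul_eq_mul, hcard]
    _ ≤ ∑ x ∈ X, (R k q d α (fun i => ρ i.castSucc) (n - a k q α x) : ℝ) := Finset.sum_le_sum hterm
    _ ≤ (R k q (d + 1) α ρ n : ℝ) := by exact_mod_cast hsum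

/-- **EXT** -/
theorem t_EXT (hGRW : S_GRW) : S_EXT := by
  intro k d hk hd c C hc hC
  have hk0 : (0 : ℝ) < k := by
    have : 0 < k := by omega
    exact_mod_cast this
  obtain ⟨E, hEdef⟩ : ∃ E : ℝ, E = (d : ℝ) / k - 1 := ⟨_, rfl⟩
  have hE0 : 0 ≤ E := by
    rw [hEdef, sub_nonneg, le_div_iff₀ hk0, one_mul]
    have : k ≤ d := by omega
    exact_mod_cast this
  refine ⟨c / (8 * 2 ^ E), 3 * 2 ^ E * C + 1, by positivity, by positivity, ?_⟩
  intro q α hq hTwo ρ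
  have hq0 : (0 : ℝ) < q := by exact_mod_cast hq
  obtain ⟨⟨x₀, hx₀, hgr, hmono⟩, ⟨B, hB⟩, hfin, hm⟩ := hGRW k q hk hq α
  obtain ⟨n₀, hn₀⟩ := hTwo (fun i => ρ i.castSucc)
  obtain ⟨m₀, hm₀⟩ := hm d (fun i => ρ i.castSucc)
  rw [← hEdef] at hn₀
  set A₀ : ℤ := ∑ x ∈ range x₀, |a k q α x| with hA₀
  have hA : ∀ x < x₀, a k q α x ≤ A₀ := by
    intro x hx
    refine (le_abs_self _).trans ?_
    exact Finset.single_le_sum (f := fun x => |a k q α x|) (fun i _ => abs_nonneg _) (Finset.mem_range.2 hx)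
  obtain ⟨K, hK⟩ : ∃ K : ℝ, K = ((∑ m ∈ Finset.Ico m₀ (n₀ : ℤ), R k q d α (fun i => ρ i.castSucc) m : ℕ) : ℝ) :=
    ⟨_, rfl⟩
  have t1 : Filter.Tendsto (fun n : ℕ => (n : ℝ) ^ (1 / (k : ℝ))) Filter.atTop Filter.atTop :=
    (tendsto_rpow_atTop (by positivity)).comp tendsto_natCast_atTop_atTop
  have t2 : Filter.Tendsto (fun n : ℕ => (n : ℝ) ^ (E + 1 / (k : ℝ))) Filter.atTop Filter.atTop :=
    (tendsto_rpow_atTop (by positivity)).comp tendsto_natCast_atTop_atTop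
  have ev1 := t1.eventually_ge_atTop (q : ℝ)
  have ev2 := t1.eventually_ge_atTop (x₀ : ℝ)
  have ev3 := t1.eventually_ge_atTop (8 * ((ρ (Fin.last d) % q + q * x₀ + q : ℕ) : ℝ))
  have ev4 := t2.eventually_ge_atTop (K * (q : ℝ) ^ d)
  have ev5 := Filter.eventually_ge_atTop (2 * n₀)
  have ev6 := Filter.eventually_ge_atTop B
  have ev7 := Filter.eventually_ge_atTop (((n₀ : ℤ) + A₀).toNat)
  have ev8 := Filter.eventually_ge_atTop (1 : ℕ)
  obtain ⟨N, hN⟩ := Filter.eventually_atTop.1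
    (ev1.and (ev2.and (ev3.and (ev4.and (ev5.and (ev6.and (ev7.and ev8)))))))
  refine ⟨N, fun n hn => ?_⟩
  obtain ⟨g1, g2, g3, g4, g5, g6, g7, g8⟩ := hN n hn
  obtain ⟨Z, hZdef⟩ : ∃ Z : ℝ, Z = (n : ℝ) ^ (1 / (k : ℝ)) := ⟨_, rfl⟩
  have hn0 : (0 : ℝ) < n := by
    have : 0 < n := by omega
    exact_mod_cast this
  have hZ : 0 ≤ Z := by rw [hZdef]; positivity
  have hZk : Z ^ k = n := by
    rw [hZdef, one_div]
    exact Real.rpow_inv_natCast_pow hn0.le (by omega)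
  rw [← hZdef] at g1 g2 g3
  have hexp : (((d + 1 : ℕ) : ℝ)) / k - 1 = E + 1 / k := by
    rw [hEdef]; push_cast; ring
  have hmul : (n : ℝ) ^ (E + 1 / (k : ℝ)) = (n : ℝ) ^ E * Z := by
    rw [hZdef, Real.rpow_add hn0]
  have hqd : (q : ℝ) ^ d = (q : ℝ) ^ (d - 1) * q := by
    rw [← pow_succ]; congr 1; omega
  have h2E : (0 : ℝ) < 2 ^ E := by positivity
  rw [hexp, hmul, show d + 1 - 1 = d by omega]
  have hqp : (0 : ℝ) < (q : ℝ) ^ (d - 1) := by positivity
  constructor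
  · have hup := upper hk hq hC hE0 hfin (fun x hx => (hgr x hx).1) hmono hB hA ρ hm₀ hK
      (fun m hm' => (hn₀ m hm').1) n hZ hZk (by
        have := Int.toNat_le.1 g7
        exact this) g6 g1 g2
    refine hup.trans ?_
    have hKle : K ≤ (n : ℝ) ^ E * Z / (q : ℝ) ^ d := by
      rw [le_div_iff₀ (by positivity), ← hmul]
      exact g4
    have : (3 * Z / q) * (C / (q : ℝ) ^ (d - 1) * (2 ^ E * (n : ℝ) ^ E)) =
        (3 * 2 ^ E * C) / (q : ℝ) ^ d * ((n : ℝ) ^ E * Z) := by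
      rw [hqd]; field_simp
    rw [this]
    have e2 : (3 * 2 ^ E * C + 1) / (q : ℝ) ^ d * ((n : ℝ) ^ E * Z) =
        (3 * 2 ^ E * C) / (q : ℝ) ^ d * ((n : ℝ) ^ E * Z) + (n : ℝ) ^ E * Z / (q : ℝ) ^ d := by
      ring
    rw [e2]
    linarith
  · intro hdvd
    have hlo := lower hk hq hc hE0 hfin (fun x hx => (hgr x hx).2) ρ
      (fun m hm' hd' => (hn₀ m hm').2 hd') n hZ hZk g5 (by linarith) hdvd
    refine le_trans (le_of_eq ?_) hlo
    rw [hqd]; field_simp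

end Pool.Agent.V5helper65.SP.EXT
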